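import Mathlib
import Pool.Agent.TH881.RK.Defs
import Pool.Agent.TH881.RQ.Low

/-! RK-J: almost all classes which are hit locally are hit globally. -/

set_option autoImplicit false

namespace Pool.Agent.TH336.J3810

open Finset Filter Topology
open Pool.Agent.TH881
open Pool.Agent.TH881.RG
open Pool.Agent.TH881.RQ
open Pool.Agent.TH881.RK
open Pool.Agent.H373R2.T7

/-- the expected number of arguments of a class is positive -/
lemma ppq_pos (pr : Bool) (w X : ℕ) (hX : 2 ≤ X) : 0 < ppq pr w X := by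
  unfold ppq
  have h1 := AA_card_pos pr w
  have hXr : (2 : ℝ) ≤ X := by exact_mod_cast hX
  have h2 : 0 < Real.log (X : ℝ) := Real.log_pos (by linarith)
  apply div_pos (by linarith)
  apply mul_pos h1
  split_ifs
  · exact h2
  · exact one_pos

/-- the classes with many elements of `A` -/
lemma many_classes (pr : Bool) (w : ℕ) (A : Set ℕ) (X : ℕ) (β κ : ℝ) (hκ0 : 0 < κ) (hβ1 : β ≤ 1)
    (hX : 2 ≤ X) (hwX : (w : ℝ) ≤ √(X : ℝ))
    (hKNc : ∀ a ∈ AA pr w, ((cls w (KN pr X) a).card : ℝ) ≤ (1 + κ) * ppq pr w X)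
    (hKA : (β - 2 * κ) * tot pr X ≤ (KA pr A X).card) :
    (β - 4 * κ) * (AA pr w).card ≤
      (((AA pr w).filter (fun a => κ * ppq pr w X ≤ (cls w (KA pr A X) a).card)).card : ℝ) := by
  classical
  have hpp0 := ppq_pos pr w X hX
  have hAA := AA_card_pos pr w
  rw [← AA_ppq pr w X] at hKA
  have hKAcls : ∀ b ∈ KA pr A X, (b : ZMod (Wp w)) ∈ AA pr w := by
    intro b hb
    rw [mem_KA] at hb
    exact arg_class pr w X b hwX hb.1.1 hb.1.2.1
  have hKAN : KA pr A X ⊆ KN pr X := by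
    intro b hb
    rw [mem_KA] at hb
    rw [mem_KN]
    exact hb.1
  obtain ⟨B, hB⟩ : ∃ B : Finset (ZMod (Wp w)), B = (AA pr w).filter (fun a => κ * ppq pr w X ≤ (cls w (KA pr A X) a).card) := ⟨_, rfl⟩
  have hBU : B ⊆ AA pr w := by rw [hB]; exact filter_subset _ _
  rw [← hB]
  have h1 : ((KA pr A X).card : ℝ) ≤ ppq pr w X * ((1 + κ) * B.card + κ * (AA pr w).card) := by
    rw [← sum_cls_AA pr w (KA pr A X) hKAcls,
      ← sum_filter_add_sum_filter_not (AA pr w) (fun a => κ * ppq pr w X ≤ (cls w (KA pr A X) a).card), ← hB, mul_add]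
    apply add_le_add
    · have h2 : ppq pr w X * ((1 + κ) * B.card) = ∑ a ∈ B, (1 + κ) * ppq pr w X := by
        rw [sum_const, nsmul_eq_mul]
        ring
      rw [h2]
      apply sum_le_sum
      intro a ha
      have h5 : ((cls w (KA pr A X) a).card : ℝ) ≤ (cls w (KN pr X) a).card := by
        exact_mod_cast card_le_card (cls_mono hKAN a)
      exact h5.trans (hKNc a (hBU ha))
    · calc ∑ a ∈ (AA pr w).filter (fun a => ¬ κ * ppq pr w X ≤ (cls w (KA pr A X) a).card), ((cls w (KA pr A X) a).card : ℝ)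
          ≤ ∑ a ∈ (AA pr w).filter (fun a => ¬ κ * ppq pr w X ≤ (cls w (KA pr A X) a).card), κ * ppq pr w X := by
            apply sum_le_sum
            intro a ha
            rw [mem_filter, not_le] at ha
            exact ha.2.le
        _ ≤ ∑ a ∈ AA pr w, κ * ppq pr w X := by
            apply sum_le_sum_of_subset_of_nonneg (filter_subset _ _)
            intro _ _ _
            positivity
        _ = _ := by
            rw [sum_const, nsmul_eq_mul]
            ring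
  have h2 : ppq pr w X * ((AA pr w).card * (β - 2 * κ)) ≤ ppq pr w X * ((1 + κ) * B.card + κ * (AA pr w).card) := by
    calc ppq pr w X * ((AA pr w).card * (β - 2 * κ)) = (β - 2 * κ) * ((AA pr w).card * ppq pr w X) := by ring
      _ ≤ _ := hKA.trans h1
  have h3 := le_of_mul_le_mul_left h2 hpp0
  have h4 : (1 + κ) * ((β - 4 * κ) * (AA pr w).card) ≤ (1 + κ) * B.card := by
    have h5 : (1 + κ) * (β - 4 * κ) ≤ β - 3 * κ := by nlinarith
    have h6 : (1 + κ) * (β - 4 * κ) * (AA pr w).card ≤ (β - 3 * κ) * (AA pr w).card :=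
      mul_le_mul_of_nonneg_right h5 hAA.le
    linarith
  exact le_of_mul_le_mul_left h4 (by linarith)

/-- **almost all classes which are hit locally are hit globally** -/
theorem stGlob_of (pr : Bool) (m : ℕ) (hm : 1 ≤ m) (hMix : StMixK pr m) : StGlob pr m := by
  classical
  intro A β κ ε hκ hκβ hβ1 hε hA
  obtain ⟨κ', hκ'⟩ : ∃ κ' : ℝ, κ' = κ / 4 := ⟨_, rfl⟩
  have hκ'0 : 0 < κ' := by rw [hκ']; positivity
  obtain ⟨ε2, hε2⟩ : ∃ ε2 : ℝ, ε2 = min ε (1 / 2) := ⟨_, rfl⟩
  have hε20 : 0 < ε2 := by rw [hε2]; positivity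
  have hε21 : ε2 ≤ ε := by rw [hε2]; exact min_le_left _ _
  have hε22 : ε2 ≤ 1 / 2 := by rw [hε2]; exact min_le_right _ _
  obtain ⟨w0, hmix⟩ := hMix κ' ε2 hκ'0 hε20 (by linarith)
  refine ⟨w0, fun w hw => ?_⟩
  obtain ⟨X1, hX1⟩ := hmix w hw
  obtain ⟨X2, hX2⟩ := KN_class pr w κ' hκ'0
  obtain ⟨X3, hX3⟩ := KA_card_ge pr A β κ' (by linarith) hβ1 hκ'0 hA
  refine ⟨X1 + X2 + X3 + w ^ 2 + 2, fun X hX => ?_⟩
  have hwX : (w : ℝ) ≤ √(X : ℝ) := by
    apply Real.le_sqrt_of_sq_le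
    have h1 : w ^ 2 ≤ X := by omega
    exact_mod_cast h1
  have hpp0 := ppq_pos pr w X (by omega)
  have hW1 : 0 < Wp w := Wp_pos w
  have hW : (0 : ℝ) < Wp w := by exact_mod_cast hW1
  have hVz := Vz_pos w
  obtain ⟨B, hB⟩ : ∃ B : Finset (ZMod (Wp w)), B = (AA pr w).filter (fun a => κ' * ppq pr w X ≤ (cls w (KA pr A X) a).card) := ⟨_, rfl⟩
  refine ⟨B, by rw [hB]; exact filter_subset _ _, ?_, ?_⟩
  · have h1 := many_classes pr w A X β κ' hκ'0 hβ1 (by omega) hwX (hX2 X (by omega)) (hX3 X (by omega))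
    rw [← hB] at h1
    have h2 : β - κ = β - 4 * κ' := by rw [hκ']; ring
    rw [h2]
    exact h1
  -- the exceptional vectors in a class
  obtain ⟨F, hF⟩ : ∃ F : (Fin m → ZMod (Wp w)) → Finset (Fin m → ℕ), F = fun t =>
    (Fintype.piFinset (fun _ : Fin m => Icc 1 X)).filter
      (fun h => (fun j => (h j : ZMod (Wp w))) = t ∧ h ∉ hitk pr m A) := ⟨_, rfl⟩
  have hfew : ∀ t ∈ sumk m w B, ((F t).card : ℝ) ≤ ε2 * ((X : ℝ) / Wp w) ^ m := by
    intro t ht
    unfold sumk at ht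
    rw [mem_filter] at ht
    obtain ⟨_, a, haB, hta⟩ := ht
    have hrep : ∀ j : Fin m, ∃ t' : ℕ, 0 < t' ∧ t' ≤ Wp w ∧ (t' : ZMod (Wp w)) = t j := by
      intro j
      obtain ⟨t', h1, h2, h3⟩ := exists_rep w 0 (t j)
      exact ⟨t', h1, by omega, h3⟩
    choose t' ht1 ht2 ht3 using hrep
    have haB' : a ∈ AA pr w ∧ κ' * ppq pr w X ≤ (cls w (KA pr A X) a).card := by
      rw [hB, mem_filter] at haB
      exact haB
    obtain ⟨C, hC⟩ : ∃ C : Finset ℕ, C = cls w (KA pr A X) a := ⟨_, rfl⟩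
    have hCm : ∀ b ∈ C, (isArg pr b ∧ √(X : ℝ) < b ∧ b ≤ X) ∧ b ∈ A ∧ (b : ZMod (Wp w)) = a := by
      intro b hb
      rw [hC, mem_cls, mem_KA] at hb
      exact ⟨hb.1.1, hb.1.2, hb.2⟩
    have hCc : κ' * ppq pr w X ≤ C.card := by
      rw [hC]
      exact haB'.2
    have hm1 := hX1 X (by omega) t' (fun j => ⟨ht1 j, ht2 j⟩) C (fun b hb => (hCm b hb).1)
      (fun b hb b' hb' => by rw [← ZMod.natCast_eq_natCast_iff, (hCm b hb).2.2, (hCm b' hb').2.2])
      (fun b hb => by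
        intro j
        have h1 : IsUnit (((t' j : ℕ) : ZMod (Wp w)) + (b : ZMod (Wp w))) := by
          rw [ht3 j, (hCm b hb).2.2]
          exact hta j
        exact h1) hCc (F t) (by
        intro h hh
        rw [hF, mem_filter, Fintype.mem_piFinset] at hh
        rw [Fintype.mem_piFinset]
        intro j
        rw [mem_It]
        have h1 := hh.1 j
        rw [mem_Icc] at h1
        refine ⟨⟨by omega, by omega⟩, ?_⟩
        rw [← ZMod.natCast_eq_natCast_iff, ht3 j]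
        exact congrFun hh.2.1 j)
    have hzero : ∑ N ∈ F t, ∑ n ∈ C, ∏ j, lp (N j + n) = 0 := by
      apply sum_eq_zero
      intro N hN
      apply sum_eq_zero
      intro n hn
      rw [hF, mem_filter] at hN
      have h1 : ¬ ∀ j, (n + N j).Prime := by
        intro h2
        exact hN.2.2 ⟨n, (hCm n hn).2.1, (hCm n hn).1.1, h2⟩
      push Not at h1
      obtain ⟨j, hj⟩ := h1
      apply prod_eq_zero (mem_univ j)
      unfold Pool.Agent.TH881.RK.lp
      rw [if_neg]
      rwa [add_comm]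
    rw [hzero] at hm1
    have hC0 : (0 : ℝ) < C.card := lt_of_lt_of_le (by positivity) hCc
    have hvC : 0 < (Vz w)⁻¹ ^ m * (C.card : ℝ) := by positivity
    have h1 := (abs_le.1 hm1).1
    have h3 : ((F t).card : ℝ) * ((Vz w)⁻¹ ^ m * C.card) ≤ (ε2 * ((X : ℝ) / Wp w) ^ m) * ((Vz w)⁻¹ ^ m * C.card) := by
      linarith
    exact le_of_mul_le_mul_right h3 hvC
  -- summation
  have hcover : (Fintype.piFinset (fun _ : Fin m => Icc 1 X)).filter
      (fun h => h ∈ {h : Fin m → ℕ | (fun j => (h j : ZMod (Wp w))) ∈ sumk m w B ∧ h ∉ hitk pr m A}) ⊆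
      (sumk m w B).biUnion F := by
    intro h hh
    rw [mem_filter] at hh
    rw [mem_biUnion]
    refine ⟨fun j => (h j : ZMod (Wp w)), hh.2.1, ?_⟩
    rw [hF, mem_filter]
    exact ⟨hh.1, rfl, hh.2.2⟩
  have hsc : ((sumk m w B).card : ℝ) ≤ (Wp w : ℝ) ^ m := by
    have h1 : (sumk m w B).card ≤ Wp w ^ m := by
      have h2 := card_le_univ (sumk m w B)
      rwa [Fintype.card_pi, prod_const, card_univ, Fintype.card_fin, ZMod.card] at h2
    exact_mod_cast h1
  calc (cntk {h : Fin m → ℕ | (fun j => (h j : ZMod (Wp w))) ∈ sumk m w B ∧ h ∉ hitk pr m A} X : ℝ)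
      ≤ (((sumk m w B).biUnion F).card : ℝ) := by
        have hcard : cntk {h : Fin m → ℕ | (fun j => (h j : ZMod (Wp w))) ∈ sumk m w B ∧ h ∉ hitk pr m A} X ≤
            ((sumk m w B).biUnion F).card := by
          unfold cntk
          refine le_trans (le_of_eq ?_) (card_le_card hcover)
          congr!
        exact_mod_cast hcard
    _ ≤ ∑ t ∈ sumk m w B, ((F t).card : ℝ) := by exact_mod_cast card_biUnion_le
    _ ≤ ∑ t ∈ sumk m w B, ε2 * ((X : ℝ) / Wp w) ^ m := sum_le_sum hfew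
    _ = (sumk m w B).card * (ε2 * ((X : ℝ) / Wp w) ^ m) := by rw [sum_const, nsmul_eq_mul]
    _ ≤ (Wp w : ℝ) ^ m * (ε2 * ((X : ℝ) / Wp w) ^ m) := mul_le_mul_of_nonneg_right hsc (by positivity)
    _ = ε2 * (X : ℝ) ^ m := by
        rw [div_pow]
        field_simp
    _ ≤ ε * (X : ℝ) ^ m := mul_le_mul_of_nonneg_right hε21 (by positivity)

end Pool.Agent.TH336.J3810
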