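import Pool.Agent.H353R3.S8
import Pool.Agent.W190.A17

open MeasureTheory Filter Topology Set
open scoped ContDiff
open ArithmeticFunction (vonMangoldt)
open H353.FB H353

namespace Pool.Agent.TH336.CC

noncomputable section

variable {A : ℝ} {W : ℝ → ℝ}

/-- Abel summation against a nondecreasing cutoff. -/
theorem abel_mono (a : ℕ → ℝ) (θ : ℝ) (hθ : 0 ≤ θ) (hW : CutW A W) (hm : Monotone W) (C : ℝ)
    (hC : ∀ x : ℝ, 1 ≤ x → |∑ n ∈ Finset.Icc 1 ⌊x⌋₊, a n| ≤ C * x ^ θ) : bdW a θ W := by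
  have hC0 : 0 ≤ C := by
    have := (abs_nonneg _).trans (hC 1 le_rfl)
    simpa using this
  refine ⟨C, fun x hx => ?_⟩
  have hx0 : 0 < x := by linarith
  set N := ⌊x⌋₊ with hN
  have e3 : W (x / ((N : ℝ) + 1)) = 0 := by
    apply hW.2.1
    have hN1 : (0:ℝ) < (N:ℝ) + 1 := by positivity
    rw [div_le_one hN1]
    exact (Nat.lt_floor_add_one x).le
  have ew : ∀ n ∈ Finset.Icc 1 N, W (x / n) = ∑ m ∈ Finset.Icc n N, wn W x m := by
    intro n hn
    rw [Finset.mem_Icc] at hn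
    rw [wn_tele W x n N (by omega), e3, sub_zero]
  have e1 : ∑ n ∈ Finset.Icc 1 N, a n * W (x / n) =
      ∑ m ∈ Finset.Icc 1 N, wn W x m * ∑ n ∈ Finset.Icc 1 m, a n := by
    calc ∑ n ∈ Finset.Icc 1 N, a n * W (x / n)
        = ∑ n ∈ Finset.Icc 1 N, ∑ m ∈ Finset.Icc n N, a n * wn W x m := by
          refine Finset.sum_congr rfl fun n hn => ?_
          rw [ew n hn, Finset.mul_sum]
      _ = ∑ m ∈ Finset.Icc 1 N, ∑ n ∈ Finset.Icc 1 m, a n * wn W x m := by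
          refine Finset.sum_comm' fun n m => ?_
          simp only [Finset.mem_Icc]
          omega
      _ = _ := by
          refine Finset.sum_congr rfl fun m _ => ?_
          rw [Finset.mul_sum]
          exact Finset.sum_congr rfl fun n _ => mul_comm _ _
  have hw0 : ∀ n ∈ Finset.Icc 1 N, 0 ≤ wn W x n := by
    intro n hn
    rw [Finset.mem_Icc] at hn
    have hn0 : (0:ℝ) < n := by exact_mod_cast hn.1
    unfold wn
    rw [sub_nonneg]
    refine hm ?_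
    exact div_le_div_of_nonneg_left hx0.le hn0 (by linarith)
  have hW1 : ∀ y, W y ≤ 1 := by
    intro y
    have := hm (le_max_left y A)
    rwa [hW.2.2 _ (le_max_right y A)] at this
  have hsum : ∑ n ∈ Finset.Icc 1 N, wn W x n ≤ 1 := by
    have e := wn_tele W x 1 N (by omega)
    rw [e3, sub_zero] at e
    rw [e]
    exact hW1 _
  rw [e1]
  calc |∑ m ∈ Finset.Icc 1 N, wn W x m * ∑ n ∈ Finset.Icc 1 m, a n|
      ≤ ∑ m ∈ Finset.Icc 1 N, |wn W x m * ∑ n ∈ Finset.Icc 1 m, a n| := Finset.abs_sum_le_sum_abs _ _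
    _ ≤ ∑ m ∈ Finset.Icc 1 N, wn W x m * (C * x ^ θ) := by
        refine Finset.sum_le_sum fun m hn => ?_
        have h0 := hw0 m hn
        rw [Finset.mem_Icc] at hn
        have hn1 : (1:ℝ) ≤ m := by exact_mod_cast hn.1
        have hnx : (m:ℝ) ≤ x := (Nat.le_floor_iff hx0.le).1 hn.2
        rw [abs_mul, abs_of_nonneg h0]
        refine mul_le_mul_of_nonneg_left ?_ h0
        have h1 := hC m hn1
        rw [Nat.floor_natCast] at h1
        refine h1.trans ?_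
        refine mul_le_mul_of_nonneg_left ?_ hC0
        exact Real.rpow_le_rpow (by linarith) hnx hθ
    _ = (∑ m ∈ Finset.Icc 1 N, wn W x m) * (C * x ^ θ) := by rw [Finset.sum_mul]
    _ ≤ 1 * (C * x ^ θ) := by
        have : 0 ≤ C * x ^ θ := by positivity
        exact mul_le_mul_of_nonneg_right hsum this
    _ = _ := one_mul _

/-- the sharp bound for `Λ - 1` from a zero-free half plane -/
theorem lam_sharp (θ : ℝ) (h0 : 1 / 2 ≤ θ) (hz : ∀ s : ℂ, θ < s.re → riemannZeta s ≠ 0) (θ' : ℝ)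
    (hθ' : θ < θ') (h1 : θ' ≤ 1) :
    ∃ C : ℝ, ∀ x : ℝ, 1 ≤ x → |∑ n ∈ Finset.Icc 1 ⌊x⌋₊, aL n| ≤ C * x ^ θ' := by
  obtain ⟨C, hC0, hC⟩ := Pool.Agent.W190.psi_of_free θ h0 hz θ' hθ' h1
  refine ⟨C + 1, fun x hx => ?_⟩
  have hx0 : 0 < x := by linarith
  have e : ∑ n ∈ Finset.Icc 1 ⌊x⌋₊, aL n = Chebyshev.psi x - (⌊x⌋₊ : ℝ) := by
    have hIoc : Finset.Ioc 0 ⌊x⌋₊ = Finset.Icc 1 ⌊x⌋₊ := by
      ext n
      simp only [Finset.mem_Ioc, Finset.mem_Icc]
      omega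
    unfold Chebyshev.psi
    rw [hIoc]
    have e2 : ∑ n ∈ Finset.Icc 1 ⌊x⌋₊, aL n = ∑ n ∈ Finset.Icc 1 ⌊x⌋₊, (vonMangoldt n - 1) := by
      refine Finset.sum_congr rfl fun n hn => ?_
      rw [Finset.mem_Icc] at hn
      unfold aL
      rw [if_neg (by omega)]
    rw [e2, Finset.sum_sub_distrib]
    simp
  rw [e]
  have a1 := hC x hx
  have a2 : (⌊x⌋₊ : ℝ) ≤ x := Nat.floor_le hx0.le
  have a3 : x < (⌊x⌋₊ : ℝ) + 1 := Nat.lt_floor_add_one x
  have a4 : 1 ≤ x ^ θ' := Real.one_le_rpow hx (by linarith)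
  rw [abs_le] at a1 ⊢
  constructor <;> nlinarith [a1.1, a1.2]

/-- every nondecreasing cutoff works for all three sums when the half plane is zero-free -/
theorem all_of_free (σ θ : ℝ) (h0 : 1 / 2 ≤ σ) (h1 : σ < θ) (h2 : θ < 1) (hA : 1 < A)
    (hz : ∀ s : ℂ, σ < s.re → riemannZeta s ≠ 0) (hW : CutW A W) (hm : Monotone W) :
    bdW aM θ W ∧ bdP θ W ∧ bdF θ W := by
  obtain ⟨C, hC⟩ := mertens_of_free σ h0 hz θ h1
  have ha := sharp_to_smooth θ (by linarith) hW hm C hC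
  obtain ⟨C', hC'⟩ := lam_sharp σ h0 hz θ h1 h2.le
  have hb := abel_mono aL θ (by linarith) hW hm C' hC'
  exact ⟨ha, (bdP_iff θ (by linarith) hA hW).2 hb, (bdF_iff θ (by linarith) hA hW).2 ha⟩

/-- one nondecreasing cutoff at every scale for one of the sums gives a zero-free half plane -/
theorem free_of_some (θ₀ : ℝ) (h0 : 1 / 2 ≤ θ₀)
    (h : ∀ θ A : ℝ, θ₀ < θ → θ < 1 → 1 < A → ∃ W, CutW A W ∧ Monotone W ∧ (bdW aM θ W ∨ bdP θ W ∨ bdF θ W)) :
    ∀ s : ℂ, θ₀ < s.re → riemannZeta s ≠ 0 := by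
  intro s hs
  by_cases h2 : s.re < 1
  · have h3 : θ₀ < (θ₀ + s.re) / 2 := by linarith
    refine W_free ((θ₀ + s.re) / 2) (by linarith) (by linarith) (fun A hA => ?_) s (by linarith)
    obtain ⟨W, a, b, c⟩ := h ((θ₀ + s.re) / 2) A h3 (by linarith) hA
    refine ⟨W, a, b, ?_⟩
    rcases c with c | c | c
    · exact Or.inl c
    · exact Or.inr ((bdP_iff _ (by linarith) hA a).1 c)
    · exact Or.inl ((bdF_iff _ (by linarith) hA a).1 c)
  · exact riemannZeta_ne_zero_of_one_le_re (not_lt.1 h2)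

/-- the box free of zeros given by one nondecreasing cutoff -/
theorem box_of_some (θ : ℝ) (h1 : 1 / 2 < θ) (h2 : θ < 1) (hA : 1 < A) (hW : CutW A W) (hm : Monotone W)
    (h : bdW aM θ W ∨ bdP θ W ∨ bdF θ W) (s : ℂ) (hz : riemannZeta s = 0) (hre : θ < s.re) :
    Real.pi < Real.log A * |s.im| := by
  refine W_box A θ hA (by linarith) h2 hW hm ?_ s hz hre
  rcases h with c | c | c
  · exact Or.inl c
  · exact Or.inr ((bdP_iff _ h1 hA hW).1 c)
  · exact Or.inl ((bdF_iff _ h1 hA hW).1 c)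

theorem AA_gt (θ : ℝ) (h : θ < 1) : 1 < AA θ := by
  unfold AA
  rw [Real.one_lt_exp_iff]
  have := HT_nonneg (sg θ)
  linarith

end

end Pool.Agent.TH336.CC
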